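import Pool.Agent.Helper79.GT.St5

/-!
# Project GT (MP_c2d095_lc), module E2X: the calls of the procedure are E2 functions
-/

set_option autoImplicit false

namespace Pool.Agent.Helper42.GT

open Pool.Agent.Helper79.GT Pool.Agent.Helper79.GS Pool.Agent.Helper19.SK Pool.Agent.Helper73.DC Finset
open scoped Classical

private theorem ite' {p : List (Fin 5) → (ℕ → ℕ) → Prop} {inst : ∀ w v, Decidable (p w v)}
    {F G : VF (Fin 5)} (hp : E2P p) (hF : E2 F) (hG : E2 G) :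
    E2 (fun w v => @ite ℕ (p w v) (inst w v) (F w v) (G w v)) := by
  have h := e_ite hp hF hG
  have e : (fun w v => @ite ℕ (p w v) (inst w v) (F w v) (G w v)) =
      fun w v => @ite ℕ (p w v) (Classical.propDecidable _) (F w v) (G w v) := by
    funext w v
    congr
  rw [e]
  exact h

private theorem zz' {X : Sys (Fin 5)} (hX : Gd X) (hEF : StEFX)
    {N T r c a b u k m fl d s t x : VF (Fin 5)} (hN : E2 N) (hT : E2 T)
    (hr : E2 r) (hc : E2 c) (ha : E2 a) (hb : E2 b) (hu : E2 u) (hk : E2 k) (hm : E2 m)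
    (hfl : E2 fl) (hd : E2 d) (hs : E2 s) (ht : E2 t) (hx : E2 x) :
    E2 (fun w v => zzX X (N w v) w (T w v) (r w v) (c w v) (a w v) (b w v) (u w v) (k w v) (m w v)
      (fl w v) (d w v) (s w v) (t w v) (x w v)) :=
  (hEF X hX).2.2.1 N T r c a b u k m fl d s t x hN hT hr hc ha hb hu hk hm hfl hd hs ht hx

section

variable {X : Sys (Fin 5)} (hX : Gd X) (hEA : StEA) (hEF : StEFX)
  {N r c a b u k m fl d s t x J : VF (Fin 5)} (hN : E2 N) (hr : E2 r) (hc : E2 c) (ha : E2 a)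
  (hb : E2 b) (hu : E2 u) (hk : E2 k) (hm : E2 m) (hfl : E2 fl) (hd : E2 d) (hs : E2 s)
  (ht : E2 t) (hx : E2 x) (hJ : E2 J)

include hX hEF hN hr hc hu hJ in
private theorem d1 : E2 (fun w v => del1X X (N w v) w (r w v) (c w v) (u w v) (J w v)) := by
  have hc' : E2 (fun w v => 1 - c w v) := e_sub (e_con 1) hc
  have hJ' : E2 (fun w v => J w v - 2) := e_sub hJ (e_con 2)
  have h0 : E2 (α := Fin 5) (fun _ _ => 0) := e_con 0
  have hF := (hEF X hX).2.2.2.2.1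
  unfold del1X
  refine ite' (hF N c u J hN hc hu hJ).1 ?_ ?_
  · refine ite' (e_eq hJ (e_con 0)) ?_ ?_
    · exact zz' hX hEF hN (e_con 2) hr hc h0 h0 hu h0 h0 h0 h0 h0 h0 h0
    · refine ite' (e_eq hJ (e_con 1)) ?_ ?_
      · exact zz' hX hEF hN (e_con 3) hr hc' hu hu hu
          (hF N (fun w v => 1 - c w v) u J hN hc' hu hJ).2.1
          h0 h0 h0 h0 h0 h0
      · refine ite' (hF N c u (fun w v => J w v - 2) hN hc hu hJ').2.2.2.1 ?_ h0
        exact zz' hX hEF hN (e_con 3) hr hc' hu hJ' hJ'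
          (hF N (fun w v => 1 - c w v) (fun w v => J w v - 2) J hN hc' hJ' hJ).2.1
          h0 h0 h0 h0 h0 h0
  · exact zz' hX hEF hN (e_con 3) hr hc hu hu hu
      (hF N c u J hN hc hu hJ).2.1 h0 h0 h0 h0 h0 h0

include hX hEF hN hr hc hu hJ in
private theorem d2 : E2 (fun w v => del2X X (N w v) w (r w v) (c w v) (u w v) (J w v)) := by
  have h0 : E2 (α := Fin 5) (fun _ _ => 0) := e_con 0
  unfold del2X
  refine ite' ((hEF X hX).2.2.2.2.1 N c u J hN hc hu hJ).2.2.2.2 ?_ h0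
  exact zz' hX hEF hN (e_con 1) (e_sub hr (e_con 1)) (e_sub (e_con 1) hc) h0 h0 hJ
    h0 h0 h0 h0 h0 h0 h0

include hX hEF hN hr hc ha hb hu hk hJ in
private theorem d3 :
    E2 (fun w v => del3X X (N w v) w (r w v) (c w v) (a w v) (b w v) (u w v) (k w v) (J w v)) := by
  have h0 : E2 (α := Fin 5) (fun _ _ => 0) := e_con 0
  have hJ1 : E2 (fun w v => J w v - 1) := e_sub hJ (e_con 1)
  unfold del3X
  refine ite' (e_eq hJ (e_con 0)) ?_ ?_
  · exact zz' hX hEF hN (e_con 2) hr hc h0 h0 hu h0 h0 h0 h0 h0 h0 h0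
  · exact zz' hX hEF hN (e_con 4) hr hc ha hb hu (e_sub hk (e_con 1)) (e_div hJ1 (e_con 2))
      (e_mod hJ1 (e_con 2)) h0 h0 h0 h0

include hX hEF hN hr hc ha hb hu hk hm hfl hJ in
private theorem d4 :
    E2 (fun w v => del4X X (N w v) w (r w v) (c w v) (a w v) (b w v) (u w v) (k w v) (m w v)
      (fl w v) (J w v)) := by
  have hnm : E2 (fun w v => nmX X (N w v) w) := ((hEF X hX).2.1 N hN).2.2.1
  unfold del4X
  exact zz' hX hEF hN (e_con 5) hr hc ha hb hu hk hm hfl (e_add (hEF X hX).1 (e_con 1)) hnm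
    (e_add (e_mul hnm (e_add hnm (e_con 2))) hnm) hJ

include hX hEA hEF hN hr hc ha hb hu hk hm hfl hd hs ht hx hJ in
private theorem d5 :
    E2 (fun w v => del5X X (N w v) w (r w v) (c w v) (a w v) (b w v) (u w v) (k w v) (m w v)
      (fl w v) (d w v) (s w v) (t w v) (x w v) (J w v)) := by
  have h0 : E2 (α := Fin 5) (fun _ _ => 0) := e_con 0
  have hnm : E2 (fun w v => nmX X (N w v) w) := ((hEF X hX).2.1 N hN).2.2.1
  have hNb : E2 (fun w v => NbX X (N w v) w) := ((hEF X hX).2.1 N hN).2.1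
  have hT := hEA.2.2.2.1 (fun w v => nmX X (N w v) w) s t hnm hs ht
  have hJ2 : E2 (fun w v => J w v / 2) := e_div hJ (e_con 2)
  have hd1 : E2 (fun w v => d w v - 1) := e_sub hd (e_con 1)
  unfold del5X
  refine ite' (e_eq hd (e_con 0)) ?_ ?_
  · refine ite' (e_and (e_le (e_con 2) hT.1) (e_and (e_lt hT.2.1 hNb) (e_lt hT.2.2 hNb))) ?_ h0
    exact zz' hX hEF hN (e_con 6) hr hc ha hb hu hk h0 hfl h0 hT.2.1 hT.2.2 h0
  · refine ite' (e_eq (e_mod hJ (e_con 2)) (e_con 0)) ?_ ?_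
    · exact zz' hX hEF hN (e_con 5) hr hc ha hb hu hk hm hfl hd1 hs hJ2 hx
    · exact zz' hX hEF hN (e_con 5) hr hc ha hb hu hk hm hfl hd1 hJ2 ht hx

include hX hEF hN hr hc ha hb hk hs ht hJ in
private theorem d6 :
    E2 (fun w v => del6X X (N w v) w (r w v) (c w v) (a w v) (b w v) (k w v) (s w v) (t w v)
      (J w v)) := by
  have h0 : E2 (α := Fin 5) (fun _ _ => 0) := e_con 0
  unfold del6X
  refine ite' (e_eq hJ (e_con 0)) ?_ ?_
  · exact zz' hX hEF hN (e_con 2) hr hc h0 h0 hs h0 h0 h0 h0 h0 h0 h0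
  · refine ite' (e_eq hJ (e_con 1)) ?_ ?_
    · exact zz' hX hEF hN (e_con 2) hr (e_sub (e_con 1) hc) h0 h0 ht h0 h0 h0 h0 h0 h0 h0
    · exact zz' hX hEF hN (e_con 3) hr hc ha hb ht hk h0 h0 h0 h0 h0 h0

end

/-- Module E2X. -/
theorem hE2X (hEA : StEA) (hEFX : StEFX) : Pool.Agent.Helper79.GT.StE2X := by
  intro X hX N Z J hN hZ hJ
  have h0 : E2 (α := Fin 5) (fun _ _ => 0) := e_con 0
  have hf : ∀ i : ℕ, E2 (fun w v => fiX X (N w v) w (Z w v) i) := fun i =>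
    (hEFX X hX).2.2.2.1 N Z (fun _ _ => i) hN hZ (e_con i)
  unfold DelX
  refine ite' (e_eq (hf 0) (e_con 1)) (d1 hX hEFX hN (hf 1) (hf 2) (hf 5) hJ) ?_
  refine ite' (e_eq (hf 0) (e_con 2)) (d2 hX hEFX hN (hf 1) (hf 2) (hf 5) hJ) ?_
  refine ite' (e_eq (hf 0) (e_con 3))
    (d3 hX hEFX hN (hf 1) (hf 2) (hf 3) (hf 4) (hf 5) (hf 6) hJ) ?_
  refine ite' (e_eq (hf 0) (e_con 4))
    (d4 hX hEFX hN (hf 1) (hf 2) (hf 3) (hf 4) (hf 5) (hf 6) (hf 7) (hf 8) hJ) ?_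
  refine ite' (e_eq (hf 0) (e_con 5))
    (d5 hX hEA hEFX hN (hf 1) (hf 2) (hf 3) (hf 4) (hf 5) (hf 6) (hf 7) (hf 8) (hf 9) (hf 10)
      (hf 11) (hf 12) hJ) ?_
  refine ite' (e_eq (hf 0) (e_con 6))
    (d6 hX hEFX hN (hf 1) (hf 2) (hf 3) (hf 4) (hf 6) (hf 10) (hf 11) hJ) ?_
  refine ite' (e_eq (hf 0) (e_con 7)) ?_ h0
  exact zz' hX hEFX hN (e_con 1) (hf 1) (hf 2) h0 h0 (hf 5) h0 h0 h0 h0 h0 h0 h0

end Pool.Agent.Helper42.GT
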