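import Pool.Agent.Helper79.GT.St1

/-!
# Module LOS of project GT (MP_c2d095_lc)

The value of the game depends only on the history in the set of boards which can still be reached.
-/

set_option autoImplicit false

namespace Pool.Agent.Helper42.GT

open Pool.Agent.Helper79.GT Pool.Agent.Helper79.GS Pool.Agent.Helper19.SK

private lemma rch_trans {P : Type} {A : Arena P} {b x y : P} {k l : ℕ} (h1 : Rch A b k x)
    (h2 : Rch A x l y) : Rch A b (k + l) y := by
  induction h2 with
  | refl => exact h1
  | rev l c x' y' _ hm1 hm2 ih => exact Rch.rev _ c _ _ ih hm1 hm2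
  | irr l c x' y' _ hm1 hm2 ih => exact Rch.irr _ c _ _ ih hm1 hm2

private lemma mw_iff {P : Type} [Finite P] (A : Arena P) (sk : Bool) (H : Set (Bool × P))
    (ps c : Bool) (b : P) :
    MWs A sk H ps c b ↔ (ps = true ∧ ahead A c b) ∨
      (ps = false ∧ ¬ MWs A sk (insert (!c, b) H) true (!c) b) ∨
      ∃ b', A.mv c b b' ∧ okk sk c b' H ∧ ¬ MWs A sk (insert (!c, b') H) false (!c) b' := by
  rw [MWs]
  simp only [exists_prop]

private lemma okk_notin {P : Type} {sk c : Bool} {b' : P} {H : Set (Bool × P)}
    (h1 : okk sk c b' H) : (!c, b') ∉ H := by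
  unfold okk at h1
  split_ifs at h1 with h2
  · exact h1
  · exact h1 _

private lemma okk_congr {P : Type} (sk c : Bool) (b' : P) (H H' : Set (Bool × P))
    (h : ∀ s, ((s, b') ∈ H ↔ (s, b') ∈ H')) : okk sk c b' H ↔ okk sk c b' H' := by
  unfold okk
  split_ifs
  · rw [h]
  · constructor
    · intro h1 s h2
      exact h1 s ((h s).2 h2)
    · intro h1 s h2
      exact h1 s ((h s).1 h2)

private lemma ncard_insert_le {P : Type} [Finite P] (z : Bool × P) (H : Set (Bool × P)) :
    ((insert z H)ᶜ).ncard ≤ (Hᶜ).ncard :=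
  Set.ncard_le_ncard (fun _ hx hxH => hx (Or.inr hxH)) (Set.toFinite _)

theorem hLOS : StLOS := by
  intro P _ A sk H H' ps c b h
  suffices key : ∀ n : ℕ, ∀ (H H' : Set (Bool × P)) (ps c : Bool) (b : P),
      2 * ((Hᶜ).ncard + (H'ᶜ).ncard) + (if ps = true then 0 else 1) = n →
      (∀ k x, Rch A b k x → ∀ s, ((s, x) ∈ H ↔ (s, x) ∈ H')) →
      (MWs A sk H ps c b ↔ MWs A sk H' ps c b) from key _ H H' ps c b rfl h
  intro n
  induction n using Nat.strong_induction_on with
  | _ n ih =>
  intro H H' ps c b hn h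
  rw [mw_iff A sk H, mw_iff A sk H']
  refine or_congr Iff.rfl (or_congr ?_ ?_)
  · cases ps with
    | true => simp
    | false =>
      have e1 := ncard_insert_le (!c, b) H
      have e2 := ncard_insert_le (!c, b) H'
      have h1 : 2 * (((insert (!c, b) H)ᶜ).ncard + ((insert (!c, b) H')ᶜ).ncard) +
          (if (true : Bool) = true then 0 else 1) < n := by
        simp only [Bool.false_eq_true, if_false] at hn
        simp only [if_true]
        omega
      have h2 := ih _ h1 (insert (!c, b) H) (insert (!c, b) H') true (!c) b rfl (by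
        intro k x hx s
        simp only [Set.mem_insert_iff, h k x hx s])
      rw [h2]
  · refine exists_congr fun b' => ?_
    refine and_congr_right fun hm => ?_
    obtain ⟨k, hk⟩ : ∃ k, Rch A b k b' := by
      by_cases h1 : A.mv (!c) b' b
      · exact ⟨0, Rch.rev 0 c b b' Rch.refl hm h1⟩
      · exact ⟨1, Rch.irr 0 c b b' Rch.refl hm h1⟩
    rw [okk_congr sk c b' H H' (h k b' hk)]
    refine and_congr_right fun hb => not_congr ?_
    have hb1 : (!c, b') ∉ H' := okk_notin hb
    have hb' : (!c, b') ∉ H := fun h1 => hb1 ((h k b' hk _).mp h1)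
    have hlt : ((insert (!c, b') H)ᶜ).ncard < (Hᶜ).ncard := by
      refine Set.ncard_lt_ncard ?_ (Set.toFinite _)
      refine ⟨fun x hx hxH => hx (Or.inr hxH), fun hcon => ?_⟩
      exact hcon (show (!c, b') ∈ Hᶜ from hb') (Or.inl rfl)
    have hle := ncard_insert_le (!c, b') H'
    refine ih (2 * (((insert (!c, b') H)ᶜ).ncard + ((insert (!c, b') H')ᶜ).ncard) +
      (if false = true then 0 else 1)) ?_ (insert (!c, b') H) (insert (!c, b') H') false
      (!c) b' rfl ?_
    · rw [← hn]
      simp only [Bool.false_eq_true, if_false]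
      split_ifs <;> omega
    · intro l x hx s
      have h3 := h _ x (rch_trans hk hx) s
      simp only [Set.mem_insert_iff, h3]

end Pool.Agent.Helper42.GT
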